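import Pool.Agent.V5helper31.UT.Sum

/-!
# Torsion-free groups as directed colimits of torsion-free reflections of finite presentations
-/

set_option autoImplicit false
set_option linter.unusedSectionVars false

namespace Pool.Agent.V5helper31.UT

open CategoryTheory CategoryTheory.Limits

universe u v w

variable (G : Type u) [Group G]

/-- finite sets of generators of `G` with finite sets of relations which hold in `G` -/
structure Idx : Type u where
  /-- generators -/
  S : Finset G
  /-- relators -/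
  R : Finset (FreeGroup S)
  rel : ∀ r ∈ R, FreeGroup.lift (fun s : S => (s : G)) r = 1

variable {G}

/-- the inclusion of the generators -/
def emb {S T : Finset G} (h : S ⊆ T) : S → T := fun s => ⟨s.1, h s.2⟩

lemma emb_refl (S : Finset G) (h : S ⊆ S) : emb h = id := rfl

lemma emb_comp {S T W : Finset G} (h : S ⊆ T) (h' : T ⊆ W) (x : FreeGroup S) :
    FreeGroup.map (emb h') (FreeGroup.map (emb h) x) = FreeGroup.map (emb (h.trans h')) x := by
  rw [FreeGroup.map.comp]
  rfl

lemma lift_emb {S T : Finset G} (h : S ⊆ T) (x : FreeGroup S) :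
    FreeGroup.lift (fun s : T => (s : G)) (FreeGroup.map (emb h) x) =
      FreeGroup.lift (fun s : S => (s : G)) x := by
  rw [← MonoidHom.comp_apply]
  congr 1
  ext s
  simp [emb]

instance : Preorder (Idx G) where
  le i j := ∃ h : i.S ⊆ j.S, ∀ r ∈ i.R, FreeGroup.map (emb h) r ∈ j.R
  le_refl i := ⟨subset_rfl, fun r hr => by
    rw [emb_refl, FreeGroup.map.id]
    exact hr⟩
  le_trans i j k := by
    rintro ⟨h1, h2⟩ ⟨h3, h4⟩
    refine ⟨h1.trans h3, fun r hr => ?_⟩
    rw [← emb_comp h1 h3]
    exact h4 _ (h2 r hr)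

instance : Nonempty (Idx G) := ⟨⟨∅, ∅, by simp⟩⟩

instance : IsDirectedOrder (Idx G) := by
  classical
  constructor
  intro i j
  have hi : i.S ⊆ i.S ∪ j.S := Finset.subset_union_left
  have hj : j.S ⊆ i.S ∪ j.S := Finset.subset_union_right
  refine ⟨⟨i.S ∪ j.S, i.R.image (FreeGroup.map (emb hi)) ∪ j.R.image (FreeGroup.map (emb hj)), ?_⟩,
    ⟨hi, ?_⟩, ⟨hj, ?_⟩⟩
  · intro r hr
    rw [Finset.mem_union, Finset.mem_image, Finset.mem_image] at hr
    rcases hr with ⟨s, hs, rfl⟩ | ⟨s, hs, rfl⟩
    · rw [lift_emb]; exact i.rel s hs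
    · rw [lift_emb]; exact j.rel s hs
  · intro r hr
    exact Finset.mem_union_left _ (Finset.mem_image_of_mem _ hr)
  · intro r hr
    exact Finset.mem_union_right _ (Finset.mem_image_of_mem _ hr)

/-- the group of an index -/
abbrev GI (i : Idx G) : Type u := TF i.S (i.R : Set (FreeGroup i.S))

/-- the transition maps -/
def tr {i j : Idx G} (h : i ≤ j) : GI i →* GI j := tmap (emb h.1) (by
  intro r hr
  exact h.2 r hr)

/-- the diagram -/
def dia : Idx G ⥤ GrpCat.{u} where
  obj i := GrpCat.of (GI i)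
  map {i j} f := GrpCat.ofHom (tr (leOfHom f))
  map_id i := by
    refine GrpCat.hom_ext (MonoidHom.ext fun x => ?_)
    obtain ⟨w, rfl⟩ := QuotientGroup.mk_surjective x
    change QuotientGroup.mk (FreeGroup.map (emb _) w) = QuotientGroup.mk w
    rw [emb_refl, FreeGroup.map.id]
  map_comp {i j k} f g := by
    refine GrpCat.hom_ext (MonoidHom.ext fun x => ?_)
    obtain ⟨w, rfl⟩ := QuotientGroup.mk_surjective x
    change QuotientGroup.mk (FreeGroup.map (emb _) w) =
      QuotientGroup.mk (FreeGroup.map (emb _) (FreeGroup.map (emb _) w))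
    rw [emb_comp]

variable (hG : TorsionFree G)

/-- the map to `G` -/
def toG (i : Idx G) : GI i →* G :=
  tlift hG (FreeGroup.lift (fun s : i.S => (s : G))) i.rel

/-- the cocone with vertex `G` -/
def coc : Cocone (dia (G := G)) where
  pt := GrpCat.of G
  ι :=
    { app := fun i => GrpCat.ofHom (toG hG i)
      naturality := by
        intro i j f
        refine GrpCat.hom_ext (MonoidHom.ext fun x => ?_)
        obtain ⟨w, rfl⟩ := QuotientGroup.mk_surjective x
        exact lift_emb _ w }

lemma toG_surj (x : G) : ∃ (i : Idx G) (y : GI i), toG hG i y = x := by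
  classical
  refine ⟨⟨{x}, ∅, by simp⟩, QuotientGroup.mk (FreeGroup.of ⟨x, Finset.mem_singleton_self x⟩), ?_⟩
  change FreeGroup.lift _ (FreeGroup.of _) = x
  rw [FreeGroup.lift_apply_of]

lemma toG_inj (i : Idx G) (y z : GI i) (h : toG hG i y = toG hG i z) :
    ∃ (j : Idx G) (hij : i ≤ j), tr hij y = tr hij z := by
  classical
  obtain ⟨w, rfl⟩ := QuotientGroup.mk_surjective y
  obtain ⟨w', rfl⟩ := QuotientGroup.mk_surjective z
  have h1 : FreeGroup.lift (fun s : i.S => (s : G)) (w⁻¹ * w') = 1 := by
    rw [map_mul, map_inv]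
    have h2 : FreeGroup.lift (fun s : i.S => (s : G)) w =
      FreeGroup.lift (fun s : i.S => (s : G)) w' := h
    rw [h2, inv_mul_cancel]
  refine ⟨⟨i.S, insert (w⁻¹ * w') i.R, ?_⟩, ⟨subset_rfl, ?_⟩, ?_⟩
  · intro r hr
    rw [Finset.mem_insert] at hr
    rcases hr with rfl | hr
    · exact h1
    · exact i.rel r hr
  · intro r hr
    rw [emb_refl, FreeGroup.map.id]
    exact Finset.mem_insert_of_mem hr
  · change QuotientGroup.mk (FreeGroup.map (emb _) w) = QuotientGroup.mk (FreeGroup.map (emb _) w')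
    rw [QuotientGroup.eq, emb_refl, FreeGroup.map.id, FreeGroup.map.id]
    apply subset_tfc
    exact Finset.mem_coe.2 (Finset.mem_insert_self _ _)

/-- `G` is the directed colimit -/
noncomputable def isColimit_coc : IsColimit (coc hG) := by
  have h1 : IsColimit ((forget GrpCat.{u}).mapCocone (coc hG)) := by
    refine Types.FilteredColimit.isColimitOf' _ _ ?_ ?_
    · intro x
      obtain ⟨i, y, hy⟩ := toG_surj hG x
      exact ⟨i, y, hy.symm⟩
    · intro i x y hxy
      obtain ⟨j, hij, h⟩ := toG_inj hG i x y hxy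
      exact ⟨j, homOfLE hij, h⟩
  have : HasColimit (dia (G := G)) :=
    ⟨⟨⟨_, GrpCat.FilteredColimits.colimitCoconeIsColimit.{u, u} (dia (G := G))⟩⟩⟩
  have : ReflectsColimit (dia (G := G)) (forget GrpCat.{u}) :=
    reflectsColimit_of_reflectsIsomorphisms _ _
  exact isColimitOfReflects (forget GrpCat.{u}) h1

end Pool.Agent.V5helper31.UT
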