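import Pool.Agent.V5helper31.UT.Diag

/-!
# Natural transformations of finitary functors are tested on one torsion-free group
-/

set_option autoImplicit false

namespace Pool.Agent.V5helper31.UT

open CategoryTheory CategoryTheory.Limits

universe u v w

section retract

variable {H L : GrpCat.{u} ⥤ AddCommGrpCat.{u}} (α : H ⟶ L) {A B : GrpCat.{u}} (a : A ⟶ B)
  (b : B ⟶ A) (hab : a ≫ b = 𝟙 A)

include hab in
lemma map_retract (F : GrpCat.{u} ⥤ AddCommGrpCat.{u}) (x : F.obj A) :
    F.map b (F.map a x) = x := by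
  rw [← ConcreteCategory.comp_apply, ← F.map_comp, hab, F.map_id]
  rfl

lemma nat_apply {A B : GrpCat.{u}} (f : A ⟶ B) (x : H.obj A) :
    L.map f (α.app A x) = α.app B (H.map f x) := by
  rw [← ConcreteCategory.comp_apply, ← ConcreteCategory.comp_apply, α.naturality]

include hab in
lemma inj_retract (h : Function.Injective (α.app B)) : Function.Injective (α.app A) := by
  intro x y hxy
  have h1 : α.app B (H.map a x) = α.app B (H.map a y) := by
    rw [← nat_apply, ← nat_apply, hxy]
  rw [← map_retract a b hab H x, h h1, map_retract a b hab H y]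

include hab in
lemma surj_retract (h : Function.Surjective (α.app B)) : Function.Surjective (α.app A) := by
  intro y
  obtain ⟨z, hz⟩ := h (L.map a y)
  refine ⟨H.map b z, ?_⟩
  rw [← nat_apply, hz, map_retract a b hab L y]

end retract

section colim

variable {H L : GrpCat.{u} ⥤ AddCommGrpCat.{u}} [PreservesFilteredColimitsOfSize.{u, u} H]
  [PreservesFilteredColimitsOfSize.{u, u} L] (α : H ⟶ L) {G : Type u} [Group G]
  (hG : TorsionFree G)

include hG

lemma exists_rep (F : GrpCat.{u} ⥤ AddCommGrpCat.{u}) [PreservesFilteredColimitsOfSize.{u, u} F]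
    (x : F.obj (GrpCat.of G)) :
    ∃ (i : Idx G) (y : F.obj (GrpCat.of (GI i))), F.map (GrpCat.ofHom (toG hG i)) y = x := by
  have h1 : IsColimit (F.mapCocone (coc hG)) := isColimitOfPreserves F (isColimit_coc hG)
  exact Concrete.isColimit_exists_rep (dia (G := G) ⋙ F) h1 x

lemma exists_eq (F : GrpCat.{u} ⥤ AddCommGrpCat.{u}) [PreservesFilteredColimitsOfSize.{u, u} F]
    (i : Idx G) (x : F.obj (GrpCat.of (GI i)))
    (hx : F.map (GrpCat.ofHom (toG hG i)) x = 0) :
    ∃ (j : Idx G) (hij : i ≤ j), F.map (GrpCat.ofHom (tr hij)) x = 0 := by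
  have h1 : IsColimit (F.mapCocone (coc hG)) := isColimitOfPreserves F (isColimit_coc hG)
  have h2 : (F.mapCocone (coc hG)).ι.app i x = (F.mapCocone (coc hG)).ι.app i 0 := by
    rw [map_zero]
    exact hx
  obtain ⟨j, f, g, hfg⟩ := Concrete.isColimit_exists_of_rep_eq (dia (G := G) ⋙ F) h1 _ _ h2
  refine ⟨j, leOfHom f, ?_⟩
  rw [map_zero] at hfg
  exact hfg

omit [PreservesFilteredColimitsOfSize.{u, u} H] in
theorem surj_of_universal
    (h : Function.Surjective (α.app (GrpCat.of (ULift.{u} UU)))) :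
    Function.Surjective (α.app (GrpCat.of G)) := by
  intro y
  obtain ⟨i, y', rfl⟩ := exists_rep hG L y
  obtain ⟨a, b, hab⟩ := exists_retract (i.R : Set (FreeGroup i.S)) i.R.finite_toSet
  have hcomp : GrpCat.ofHom a ≫ GrpCat.ofHom b = 𝟙 (GrpCat.of (GI i)) :=
    GrpCat.hom_ext (MonoidHom.ext hab)
  obtain ⟨z, hz⟩ := surj_retract α _ _ hcomp h y'
  refine ⟨H.map (GrpCat.ofHom (toG hG i)) z, ?_⟩
  rw [← nat_apply, hz]

theorem inj_of_universal
    (h : Function.Injective (α.app (GrpCat.of (ULift.{u} UU)))) :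
    Function.Injective (α.app (GrpCat.of G)) := by
  rw [injective_iff_map_eq_zero]
  intro x hx
  obtain ⟨i, x', rfl⟩ := exists_rep hG H x
  rw [← nat_apply] at hx
  obtain ⟨j, hij, hj⟩ := exists_eq hG L i _ hx
  rw [nat_apply] at hj
  obtain ⟨a, b, hab⟩ := exists_retract (j.R : Set (FreeGroup j.S)) j.R.finite_toSet
  have hcomp : GrpCat.ofHom a ≫ GrpCat.ofHom b = 𝟙 (GrpCat.of (GI j)) :=
    GrpCat.hom_ext (MonoidHom.ext hab)
  have h1 : H.map (GrpCat.ofHom (tr hij)) x' = 0 := by
    apply inj_retract α _ _ hcomp h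
    rw [hj, map_zero]
  have h2 : GrpCat.ofHom (tr hij) ≫ GrpCat.ofHom (toG hG j) = GrpCat.ofHom (toG hG i) :=
    (coc hG).w (homOfLE hij)
  rw [← h2, H.map_comp, ConcreteCategory.comp_apply, h1, map_zero]

end colim

end Pool.Agent.V5helper31.UT
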