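import Pool.Agent.V5helper31.UT.Refl

/-!
# The universal direct sum and its retracts
-/

set_option autoImplicit false

namespace Pool.Agent.V5helper31.UT

universe u v w

open Classical in
/-- the inclusion of a summand -/
noncomputable def inc (c : Code) : TC c →* UU :=
  AddMonoidHom.toMultiplicative (DFinsupp.singleAddHom (fun c : Code => Additive (TC c)) c) |>.comp
    (MulEquiv.refl (TC c)).toMonoidHom

/-- the projection to a summand -/
noncomputable def prj (c : Code) : UU →* TC c where
  toFun f := (f.toAdd c).toMul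
  map_one' := rfl
  map_mul' _ _ := rfl

lemma prj_inc (c : Code) (x : TC c) : prj c (inc c x) = x := by
  classical
  change Additive.toMul ((DFinsupp.single c (Additive.ofMul x) :
    Π₀ c : Code, Additive (TC c)) c) = x
  rw [DFinsupp.single_eq_same]
  rfl

lemma torsionFree_UU : TorsionFree UU := by
  intro f n hn hf
  apply Multiplicative.toAdd.injective
  apply DFinsupp.ext
  intro c
  have h1 : (prj c f) ^ n = 1 := by rw [← map_pow, hf, map_one]
  exact congrArg Additive.ofMul (torsionFree_TF _ _ _ n hn h1)

/-- every torsion-free reflection of a finite presentation is a retract of the universal sum -/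
theorem exists_retract {X : Type u} [Finite X] (R : Set (FreeGroup X)) (hR : R.Finite) :
    ∃ (i : TF X R →* ULift.{u} UU) (r : ULift.{u} UU →* TF X R), ∀ x, r (i x) = x := by
  classical
  obtain ⟨n, ⟨e⟩⟩ := Finite.exists_equiv_fin X
  let R' : Finset (FreeGroup (Fin n)) := (hR.image (FreeGroup.map e)).toFinset
  let c : Code := ⟨n, R'⟩
  have h1 : ∀ r ∈ R, FreeGroup.map e r ∈ (R' : Set (FreeGroup (Fin n))) := by
    intro r hr
    simp only [R', Set.Finite.coe_toFinset]
    exact ⟨r, hr, rfl⟩
  have h2 : ∀ r ∈ (R' : Set (FreeGroup (Fin n))), FreeGroup.map e.symm r ∈ R := by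
    intro r hr
    simp only [R', Set.Finite.coe_toFinset] at hr
    obtain ⟨s, hs, rfl⟩ := hr
    rw [FreeGroup.map.comp]
    have : (e.symm ∘ e) = id := by funext x; simp
    rw [this, FreeGroup.map.id]
    exact hs
  let a : TF X R →* TC c := tmap e h1
  let b : TC c →* TF X R := tmap e.symm h2
  refine ⟨(MulEquiv.ulift.symm.toMonoidHom.comp (inc c)).comp a,
    b.comp ((prj c).comp MulEquiv.ulift.toMonoidHom), ?_⟩
  intro x
  change b (prj c (inc c (a x))) = x
  rw [prj_inc]
  obtain ⟨w, rfl⟩ := QuotientGroup.mk_surjective x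
  change tmap e.symm h2 (tmap e h1 (QuotientGroup.mk w)) = _
  rw [tmap_mk, tmap_mk, FreeGroup.map.comp]
  have : (e.symm ∘ e) = id := by funext x; simp
  rw [this, FreeGroup.map.id]

end Pool.Agent.V5helper31.UT
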